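import Pool.Agent.H.MP_6c75e4_nt.A

set_option autoImplicit false

namespace Pool.Agent.Results.MP_6c75e4_nt.NotAll

open Polynomial Filter

open Classical in
/-- the expanding complex roots -/
noncomputable def expRoots (P : ℤ[X]) : Finset ℂ :=
  (P.aroots ℂ).toFinset.filter fun z => 1 < ‖z‖

/-- the sequence `x_n(g)` -/
noncomputable def xs (P : ℤ[X]) (g : ℂ → ℂ[X]) (n : ℕ) : ℝ :=
  (∑ z ∈ expRoots P, (g z).eval (n : ℂ) * z ^ n).re

/-- the multiplicative Lagrange spectrum of order `k` -/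
def spec (P : ℤ[X]) (k : ℕ) : Set ℝ :=
  {v | ∃ g : ℂ → ℂ[X], (∀ z ∈ expRoots P, (g z).degree ≤ k) ∧
    (∀ z ∈ expRoots P, g (starRingEnd ℂ z) = (g z).map (starRingEnd ℂ)) ∧
    v = limsup (fun n => |xs P g n - round (xs P g n)|) atTop}

theorem result (P : ℤ[X]) (hP : P.Monic) (k : ℕ) :
    (∃ c : ℝ, 0 < c ∧ (spec P k ∩ Set.Iio c).Countable) ∧
    ∃ v ∈ Set.Icc (0 : ℝ) (1 / 2), v ∉ spec P k := by
  classical
  obtain ⟨c, hc, h⟩ := Pool.Agent.H.MP_6c75e4_nt.countable_small (S := expRoots P) hP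
    (fun z hz => (mem_aroots.mp (Multiset.mem_toFinset.mp (Finset.mem_filter.mp hz).1)).2)
    (fun z hz => (Finset.mem_filter.mp hz).2) k
  have h1 : (spec P k ∩ Set.Iio c).Countable :=
    h.mono (by
      rintro v ⟨⟨g, a1, _, a3⟩, a4⟩
      exact ⟨a4, g, a1, a3⟩)
  refine ⟨⟨c, hc, h1⟩, ?_⟩
  by_contra hcon
  push Not at hcon
  have h2 : (Set.Ioo 0 (min c (1 / 2))).Countable := h1.mono (by
    intro v hv
    exact ⟨hcon v ⟨hv.1.le, (hv.2.trans_le (min_le_right _ _)).le⟩,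
      hv.2.trans_le (min_le_left _ _)⟩)
  have h3 := h2.measure_zero MeasureTheory.volume
  rw [Real.volume_Ioo, ENNReal.ofReal_eq_zero, sub_zero] at h3
  exact absurd h3 (not_le.mpr (lt_min hc (by norm_num)))

end Pool.Agent.Results.MP_6c75e4_nt.NotAll
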